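import Mathlib
import Pool.Agent.Run7.h752.SC.BridgeX

/-!
# Closed two-forms with nonnegative top power: extremal closed currents

`X` is a closed manifold of dimension `2 (m + 1)` oriented by a volume form, and `σ` is a closed
two-form with `σ ^ (m + 1)` nonnegative; `Deg m σ` is the set where `σ ^ (m + 1)` vanishes. A closed
current is a nonzero finite measure `μ` carried by `Deg m σ` such that the current
`η ↦ ∫ (η ∧ σ ^ m / vol) dμ` vanishes on the exact forms; it is extremal if the closed currents
`ν ≤ μ` are the multiples of `μ`. A closed form `ζ` is called admissible here if there are a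
one-form `α` and `c > 0` such that the forms `σ + t (ζ + dα)`, `0 < t ≤ c`, are positive symplectic
forms with top power at least `c t vol`.

* A closed two-form `ζ` is admissible if and only if its integral over each extremal closed current
  is positive; equivalently, if for each extremal closed current there is a one-form `α` such that
  `(ζ + dα) ∧ σ ^ m` is nonnegative over the support, and positive at a point of it.
* The support of an extremal closed current is a test set: it is compact and nonempty, the smooth
  functions whose differential vanishes on the kernels of `σ` at its points are constant on it, and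
  it is small at none of its points.
* A linear combination of the closed forms `ζ 0, …, ζ (n - 1)` is admissible if and only if there
  are no `r ≤ n + 1` extremal closed currents, `r > 0`, whose sum vanishes on `ζ 0, …, ζ (n - 1)`.
* If the classes of these forms span the second cohomology, then the forms `σ + t η`, `0 < t ≤ c`,
  are positive symplectic forms with top power at least `c t vol` for some closed two-form `η` and
  some `c > 0` if and only if there are no such currents.
-/

set_option autoImplicit false

open Set MeasureTheory
open scoped Manifold ContDiff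

namespace Pool.Agent.Results.MP_9986fc_gt.ExtremalCurrents

open Pool.Agent.Y501.SYP
open Pool.Agent.R772.SYK
open Pool.Agent.R772.SYF
open Pool.Agent.R772.SYD
open Pool.Agent.R772.SYM
open Run7.h752.SYX

theorem result (m d : ℕ) (hd : d = 2 * (m + 1)) (X : Type) [TopologicalSpace X]
    [ChartedSpace (ES d) X] [IsManifold 𝓘(ℝ, ES d) ∞ X] [CompactSpace X] [T2Space X]
    [MeasurableSpace X] [BorelSpace X]
    (vol : TopForm (ES d) X m) (hvol : IsVolume vol)
    (σ : Form (ES d) X 2) (hσ : IsClosed2 σ) (hnn : TopNonneg vol σ) :
    (∀ ζ : Form (ES d) X 2, IsClosed2 ζ → List.TFAE [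
      Admissible vol σ ζ,
      ∀ μ : Measure X, Extremal vol σ μ → 0 < ∫ x, density vol σ ζ x ∂μ,
      ∀ μ : Measure X, Extremal vol σ μ → ∃ (α : Form (ES d) X 1) (ρ : Form (ES d) X 2),
        ExactPair α ρ ∧ SemiPos vol σ (addF ζ ρ) μ.support]) ∧
    (∀ μ : Measure X, Extremal vol σ μ → TestSet vol σ μ.support) ∧
    (∀ (n : ℕ) (ζ : Fin n → Form (ES d) X 2), (∀ i, IsClosed2 (ζ i)) →
      ((∃ c : Fin n → ℝ, Admissible vol σ (lin c ζ)) ↔
        ¬ ∃ (r : ℕ) (μ : Fin r → Measure X), NullSum vol σ ζ r μ)) ∧
    ∀ (n : ℕ) (ζ : Fin n → Form (ES d) X 2), Spans ζ →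
      ((∃ (η : Form (ES d) X 2) (c : ℝ), IsClosed2 η ∧ SymplecticUpTo vol σ η c) ↔
        ¬ ∃ (r : ℕ) (μ : Fin r → Measure X), NullSum vol σ ζ r μ) :=
  ⟨fun _ hζ => one_tfae hd hvol hσ hnn hζ, fun _ hμ => test_of_extremal hd hvol hσ hnn hμ,
    fun _ _ hζ => many hd hvol hσ hnn hζ, fun _ _ hζ => span_iff hd hvol hσ hnn hζ⟩

end Pool.Agent.Results.MP_9986fc_gt.ExtremalCurrents
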