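import Mathlib
import Pool.Agent.Run7.h752.SC.BridgeN3

/-!
# Closed two-forms whose degenerate set has locally finite area

`X` is a closed manifold of dimension `2 (m + 1)` oriented by a volume form, and `σ` is a closed
two-form with `σ ^ (m + 1)` nonnegative; `Deg m σ` is the set where `σ ^ (m + 1)` vanishes. We
assume that `σ ^ m` does not vanish on `Deg m σ`, and that this set has finite two-dimensional
Hausdorff measure near each of its points. A closed current is a nonzero finite measure `μ` carried
by `Deg m σ` such that the current `η ↦ ∫ (η ∧ σ ^ m / vol) dμ` vanishes on the exact forms.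

There are finitely many closed currents `μ 0, …, μ (r - 1)` with the following properties.

* Their supports are pairwise disjoint compact connected smooth surfaces in `Deg m σ`, tangent to
  the kernel of `σ`.
* Every closed current is a combination of them with nonnegative coefficients.
* For a closed two-form `ζ` there are a one-form `α` and `c > 0` such that the forms
  `σ + t (ζ + dα)`, `0 < t ≤ c`, are positive symplectic forms with top power at least `c t vol`, if
  and only if the integral of `ζ` over each of `μ 0, …, μ (r - 1)` is positive.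
* If the classes of `ζ 0, …, ζ (n - 1)` span the second cohomology, then the forms `σ + t η`,
  `0 < t ≤ c`, are positive symplectic forms with top power at least `c t vol` for some closed
  two-form `η` and some `c > 0` if and only if no combination of `μ 0, …, μ (r - 1)` with
  nonnegative coefficients, not all zero, vanishes on `ζ 0, …, ζ (n - 1)`.

In particular, if `Deg m σ` contains no closed surface tangent to the kernel of `σ`, then there are
no closed currents (`r = 0`), and the class of `σ` contains symplectic forms.
-/

set_option autoImplicit false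

open Set MeasureTheory
open scoped Manifold ContDiff NNReal

namespace Pool.Agent.Results.MP_9986fc_gt.KernelSurfaces

open Pool.Agent.Y501.SYP
open Pool.Agent.R772.SYK
open Pool.Agent.R772.SYF
open Pool.Agent.R772.SYD
open Pool.Agent.R772.SYM
open Run7.h752.SYX

theorem result (m d : ℕ) (hd : d = 2 * (m + 1)) (X : Type) [TopologicalSpace X]
    [ChartedSpace (ES d) X] [IsManifold 𝓘(ℝ, ES d) ∞ X] [CompactSpace X] [T2Space X]
    [MeasurableSpace X] [BorelSpace X]
    (vol : TopForm (ES d) X m) (hvol : IsVolume vol)
    (σ : Form (ES d) X 2) (hσ : IsClosed2 σ) (hnn : TopNonneg vol σ)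
    (hr : ∀ z ∈ Deg m σ, PowNe m σ z) (hf : ∀ z ∈ Deg m σ, FiniteArea (ES d) (Deg m σ) z) :
    ∃ (r : ℕ) (μ : Fin r → Measure X),
      (∀ i, IsClosedCurrent vol σ (μ i) ∧ KernelSurface m σ (μ i).support) ∧
      (∀ i j, i ≠ j → Disjoint (μ i).support (μ j).support) ∧
      (∀ ν : Measure X, IsClosedCurrent vol σ ν → ∃ c : Fin r → ℝ≥0, ν = ∑ i, c i • μ i) ∧
      (∀ ζ : Form (ES d) X 2, IsClosed2 ζ →
        (Admissible vol σ ζ ↔ ∀ i, 0 < ∫ x, density vol σ ζ x ∂(μ i))) ∧
      ∀ (n : ℕ) (ζ : Fin n → Form (ES d) X 2), Spans ζ →
        ((∃ (η : Form (ES d) X 2) (c : ℝ), IsClosed2 η ∧ SymplecticUpTo vol σ η c) ↔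
          ¬ ∃ c : Fin r → ℝ, (∀ i, 0 ≤ c i) ∧ (∃ i, c i ≠ 0) ∧
            ∀ j, ∑ i, c i * ∫ x, density vol σ (ζ j) x ∂(μ i) = 0) :=
  area_main hd hvol hσ hnn hr hf

end Pool.Agent.Results.MP_9986fc_gt.KernelSurfaces
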