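import Mathlib
import Pool.Agent.Run7.h752.SC.BridgeLL

/-!
# Closed two-forms with nonnegative top power: surfaces tangent to the kernel

`X` is a closed manifold of dimension `2 (m + 1)` oriented by a volume form, and `σ` is a closed
two-form with `σ ^ (m + 1)` nonnegative; `Deg m σ` is the set where `σ ^ (m + 1)` vanishes. A closed
current is a nonzero finite measure `μ` carried by `Deg m σ` such that the current
`η ↦ ∫ (η ∧ σ ^ m / vol) dμ` vanishes on the exact forms. A closed form `ζ` is called admissible
here if there are a one-form `α` and `c > 0` such that the forms `σ + t (ζ + dα)`, `0 < t ≤ c`, are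
positive symplectic forms with top power at least `c t vol`.

* Closed currents are laminated by surfaces tangent to the kernel of `σ`: near each point of the
  support where `σ ^ m` does not vanish, the current is the integral, with respect to a finite
  measure on a compact transversal, of the currents of integration over disjoint smooth discs
  tangent to the kernel of `σ`, which are contained in the support and cover it near this point.
  The support is also invariant under the smooth vector fields which, over the support, are tangent
  to the kernel of `σ` and vanish where `σ ^ m` vanishes.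
* Thus a closed two-form `ζ` is admissible if and only if for each test set `C` which contains a
  smooth immersed disc tangent to the kernel of `σ` through each of its points where `σ ^ m` does
  not vanish, and is invariant under these vector fields, there is a one-form `α` such that
  `(ζ + dα) ∧ σ ^ m` is nonnegative over `C`, and positive at a point of it.
* If `Deg m σ` is covered by closed sets `F k` such that at each point `z` of `F k ∩ Deg m σ`
  either this set is small, or `σ ^ m` does not vanish and the set contains no disc through `z`
  tangent to the kernel of `σ`, or one can leave `Deg m σ` from `z` along a vector field tangent to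
  the kernel, then all closed two-forms `ζ` are admissible. In particular this holds if `σ ^ m` does
  not vanish on `Deg m σ`, and this set contains no disc tangent to the kernel of `σ`.
-/

set_option autoImplicit false

open Set MeasureTheory
open scoped Manifold ContDiff

namespace Pool.Agent.Results.MP_9986fc_gt.LaminatedSupports

open Pool.Agent.Y501.SYP
open Pool.Agent.R772.SYK
open Pool.Agent.R772.SYF
open Pool.Agent.R772.SYD
open Pool.Agent.R772.SYM
open Run7.h752.SYX

theorem result (m d : ℕ) (hd : d = 2 * (m + 1)) (X : Type) [TopologicalSpace X]
    [ChartedSpace (ES d) X] [IsManifold 𝓘(ℝ, ES d) ∞ X] [CompactSpace X] [T2Space X]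
    [MeasurableSpace X] [BorelSpace X]
    (vol : TopForm (ES d) X m) (hvol : IsVolume vol)
    (σ : Form (ES d) X 2) (hσ : IsClosed2 σ) (hnn : TopNonneg vol σ) :
    (∀ μ : Measure X, IsClosedCurrent vol σ μ →
      (∀ z ∈ μ.support, PowNe m σ z → LaminatedAt vol σ μ z) ∧
      ∀ Y : (x : X) → TangentSpace 𝓘(ℝ, ES d) x, KernelField m σ μ.support Y →
        ∀ γ : ℝ → X, IsMIntegralCurve (I := 𝓘(ℝ, ES d)) γ Y →
          γ 0 ∈ μ.support → ∀ t, γ t ∈ μ.support) ∧
    (∀ ζ : Form (ES d) X 2, IsClosed2 ζ → (Admissible vol σ ζ ↔
      ∀ C : Set X, LamTest vol σ C → ∃ (α : Form (ES d) X 1) (ρ : Form (ES d) X 2),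
        ExactPair α ρ ∧ SemiPos vol σ (addF ζ ρ) C)) ∧
    (∀ F : ℕ → Set X, Removable vol σ F →
      ∀ ζ : Form (ES d) X 2, IsClosed2 ζ → Admissible vol σ ζ) ∧
    ((∀ z ∈ Deg m σ, PowNe m σ z ∧ ¬ TangentDisc σ (Deg m σ) z) →
      ∀ ζ : Form (ES d) X 2, IsClosed2 ζ → Admissible vol σ ζ) :=
  ⟨fun _ hμ => ⟨fun _ hz hr => laminated_of_current hd hvol hσ hnn hμ hz hr,
      fun _ hY _ hγ h0 t => inv_of_current hd hvol hσ hnn hμ hY hγ h0 t⟩,
    fun _ hζ => lam_tfae hd hvol hσ hnn hζ,
    fun _ hF _ hζ => removable_all hd hvol hσ hnn hF hζ,
    fun h _ hζ => removable_all hd hvol hσ hnn (removable_of_noDisc h) hζ⟩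

end Pool.Agent.Results.MP_9986fc_gt.LaminatedSupports
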