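import Mathlib
import Pool.Agent.Run7.h21.MD.Main

/-!
# Tamed almost complex structures and pseudoholomorphic modifications at finitely many points

`(X, JX)` and `(Y, JY)` are closed manifolds of dimension `d ≥ 4` with continuous almost complex
structures, and `f : X → Y` is a modification over a finite set `P`: `f` is smooth and
pseudoholomorphic, it has a smooth inverse `g` over the complement of `P`, and the differential of
`g` grows at the points `p` of `P` at most like `dist(p, ·) ^ (-b)`, with `b < 1`, or with
`b < 1 + γ / 2` if `JY` is Hoelder continuous with exponent `γ` near `p`. Blow-ups of points, for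
which `b = 1`, are allowed as soon as `JY` is Hoelder continuous; nothing is supposed to be
integrable, and the fibres over `P` are arbitrary.

* (Contraction) If `JX` is tamed by a symplectic form `σ` then `JY` is tamed by a symplectic form,
  which outside a given neighbourhood of `P` is `g^* σ` plus the differential of a smooth one-form
  on `Y`.
* (Blowing up) If `JY` is tamed by `τ` and `ζ` is a closed two-form on `X`, the class of which is
  positive on the fibres over `P` (`PositiveOver`), then `f^* τ + t (ζ + dα)` tames `JX` for some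
  one-form `α` and all small `t > 0`.
* So `JX` is tamed by a symplectic form if and only if `JY` is tamed by a symplectic form and there
  is a closed two-form on `X` whose class is positive on the fibres over `P`.

Proof. The form `g^* σ` is closed off `P`, and it tames `JY` uniformly near all points, also near
the points of `P`, since the differential of `f` is bounded: for `v = df(u)` one has
`(g^* σ)(v, JY v) = σ(u, JX u) ≥ c |u|² ≥ c' |v|²`. It is unbounded near `P`, of the order
`dist ^ (-2 b)`; such singularities are removed by the theorem of helper500 (starting files,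
`Pool.Agent.N500.LS`). For the second part, `f` is constant on the null vectors of the
semidefinite form `f^* τ`, which are the vectors in the kernel of `df`, and the two level theorem of
helper501 (starting files, `Pool.Agent.Y501.SY`) applies.
-/

set_option autoImplicit false

open Set MeasureTheory
open scoped Manifold ContDiff

namespace Pool.Agent.Results.MP_9986fc_gt.ModificationsAtPoints

open Pool.Agent.Y501.SYP Run7.h21.MDP

/-- **Modifications at finitely many points.** -/
theorem result (d : ℕ) (hd : 4 ≤ d) (X Y : Type)
    [TopologicalSpace X] [ChartedSpace (ES d) X] [IsManifold 𝓘(ℝ, ES d) ∞ X] [CompactSpace X]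
    [T2Space X] [TopologicalSpace Y] [ChartedSpace (ES d) Y] [IsManifold 𝓘(ℝ, ES d) ∞ Y]
    [CompactSpace Y] [T2Space Y] (JX : End (ES d) X) (JY : End (ES d) Y)
    (hX : IsAlmostComplex JX) (hY : IsAlmostComplex JY) (f : X → Y) (g : Y → X) (P : Set Y)
    (h : Modification JX JY f g P) :
    ((∃ σ : Form (ES d) X 2, IsTamingSymplectic σ JX) ↔
      (∃ τ : Form (ES d) Y 2, IsTamingSymplectic τ JY) ∧
      ∃ ζ : Form (ES d) X 2, IsSmooth ζ ∧ IsClosedForm ζ ∧ ∀ p ∈ P, PositiveOver f ζ JX p) ∧
    (∀ σ : Form (ES d) X 2, IsTamingSymplectic σ JX → ∀ U : Set Y, IsOpen U → P ⊆ U →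
      ∃ (α : Form (ES d) Y 1) (η w : Form (ES d) Y 2), IsSmooth α ∧ IsSmooth η ∧ IsD α η ∧
        IsTamingSymplectic w JY ∧ ∀ y, y ∉ U → w y = addF (pullF g σ) η y) ∧
    (∀ (τ : Form (ES d) Y 2) (ζ : Form (ES d) X 2), IsTamingSymplectic τ JY → IsSmooth ζ →
      IsClosedForm ζ → (∀ p ∈ P, PositiveOver f ζ JX p) →
      ∃ (α : Form (ES d) X 1) (ρ : Form (ES d) X 2), IsSmooth α ∧ IsSmooth ρ ∧ IsD α ρ ∧
        ∃ t₀ : ℝ, 0 < t₀ ∧ ∀ t : ℝ, 0 < t → t ≤ t₀ →
          IsTamingSymplectic (comb (pullF f τ) t (addF ζ ρ)) JX) :=
  ⟨main hd hX hY h, fun σ hσ U hU hPU => contraction hd hX hY h σ hσ U hU hPU,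
    fun τ ζ hτ hζ hζc hp => blowup hX h τ ζ hτ hζ hζc hp⟩

end Pool.Agent.Results.MP_9986fc_gt.ModificationsAtPoints
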